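import Pool.Agent.H494_TD.Surj

/-!
A Turing degree below `0^(ω)` that contains no complete theory with a computable model.
-/

open FirstOrder Cardinal

namespace Pool.Agent.Results.MP_f36693_lc.DegreeWithoutComputableModel

open Pool.Agent.H494_SCM Pool.Agent.H494_SA Pool.Agent.H494_TD

/-- The first two clauses certify the definitions: `B` is computably enumerable in `A` (the domain
of a partial function recursive in `A`) iff `B` is many-one reducible to `jump A`, and every formula
has a Goedel number. The last clause: there is a noncomputable set `X` that is computable in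
`0^(ω)`, such that for every computable signature and every complete theory `T` in it with a
computable model, if `T` is computable in `X` then `T` is decidable, and `T` is not Turing
equivalent to `X`. -/
theorem result :
    (∀ A B : Set ℕ, (∃ f : ℕ →. ℕ, TuringReducible f (chi A) ∧ ∀ x, x ∈ B ↔ (f x).Dom) ↔
      ∃ g : ℕ → ℕ, Computable g ∧ ∀ x, x ∈ B ↔ g x ∈ jump A) ∧
    (∀ (fs rs : ℕ → Option ℕ) (n : ℕ) (φ : (Lng fs rs).BoundedFormula Empty n),
      ∃ c, gm fs rs c n = φ) ∧
    ∃ X : Set ℕ, TuringReducible (chi X) (chi zeroOmega) ∧ ¬ ComputablePred (fun n => n ∈ X) ∧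
      ∀ fs rs : ℕ → Option ℕ, Computable fs → Computable rs →
        ∀ T : (Lng fs rs).Theory, T.IsComplete →
          (∃ (M : FirstOrder.Language.Theory.ModelType.{0, 0, 0} T) (ν : ℕ → M),
            CompPres (fs := fs) (rs := rs) M ν) →
          (TuringReducible (chi (numbers T)) (chi X) →
            ComputablePred (fun c => c ∈ numbers T)) ∧
          ¬ TuringEquivalent (chi (numbers T)) (chi X) := by
  classical
  refine ⟨fun A B => ?_, fun fs rs n φ => gm_surj φ, XX, ?_, XX_not_comp, ?_⟩
  · rw [← jump_spec]
    simp only [TuringReducible, RecursiveIn.iff_nat]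
  · exact RecursiveIn.iff_nat.2 XX_low
  · intro fs rs hfs hrs T hT hM
    obtain ⟨M, ν, hν⟩ := hM
    obtain ⟨t, ht, ht'⟩ := truth_reduces (truthSys hfs hν)
    have hred : ∀ c, c ∈ numbers T ↔ t (c, []) ∈ zeroOmega := by
      intro c
      rw [← ht' c ([] : List ℕ)]
      have h2 : M ⊨ (gm fs rs c 0 : (Lng fs rs).Sentence) ↔ T ⊨ᵇ (gm fs rs c 0) :=
        hT.realize_sentence_iff (gm fs rs c 0) M
      refine Iff.trans (show c ∈ numbers T ↔ T ⊨ᵇ (gm fs rs c 0) from Iff.rfl) ?_
      rw [← h2]
      apply Iff.of_eq
      unfold HT FirstOrder.Language.Sentence.Realize FirstOrder.Language.Formula.Realize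
      congr 1
      funext x
      exact x.elim0
    have ht2 : Computable (fun c : ℕ => t (c, [])) :=
      ht.comp (Computable.pair Computable.id (Computable.const []))
    have key : TuringReducible (chi (numbers T)) (chi XX) →
        ComputablePred (fun c => c ∈ numbers T) := fun h =>
      XX_below (RecursiveIn.iff_nat.1 h) ht2 hred
    refine ⟨key, fun heq => ?_⟩
    -- if the two were equivalent then `X` would be computable
    have h1 := key heq.1
    have h2 : Partrec (chi (numbers T)) := by
      have : Computable (fun c : ℕ => if c ∈ numbers T then 1 else 0) :=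
        c_ite h1 (Computable.const 1) (Computable.const 0)
      exact this
    have h3 : Partrec (chi XX) := RecursiveIn.partrec_of_oracle (O := {chi (numbers T)})
      (fun g hg => by rw [Set.mem_singleton_iff.1 hg]; exact h2) heq.2
    apply XX_not_comp
    have h4 : Computable (fun n : ℕ => if n ∈ XX then 1 else 0) := h3
    refine cp_of_iff (cp_eq h4 (Computable.const 1)) ?_
    intro n
    by_cases h : n ∈ XX <;> simp [h]

end Pool.Agent.Results.MP_f36693_lc.DegreeWithoutComputableModel
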